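import Pool.Agent.H96.FD8

set_option autoImplicit false
open MeasureTheory Filter Topology ProbabilityTheory

namespace Pool.Agent.Results.MP_9e03f2_pr.Yes

/-- The l1 norm on the lattice `Fin d → ℤ`. -/
def l1 {d : ℕ} (v : Fin d → ℤ) : ℕ := ∑ i, (v i).natAbs

/-- The coding radius of `F` at `y`: the least `r` such that `F y' 0 = F y 0` for every `y'`
that agrees with `y` on the l1 ball of radius `r` (and `⊤` if there is no such `r`). -/
noncomputable def radius {d : ℕ} {Y C : Type} (F : ((Fin d → ℤ) → Y) → (Fin d → ℤ) → C)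
    (y : (Fin d → ℤ) → Y) : ℕ∞ :=
  ⨅ (r : ℕ) (_ : ∀ y' : (Fin d → ℤ) → Y, (∀ v, l1 v ≤ r → y' v = y v) → F y' 0 = F y 0), (r : ℕ∞)

open H96.FD

def pr (d : ℕ) : (Fin d → ℤ) × Fin d ≃ (Fin d → ℤ) × Fin d where
  toFun q := (q.1 - Pi.single q.2 1, q.2)
  invFun q := (q.1 + Pi.single q.2 1, q.2)
  left_inv q := by simp
  right_inv q := by simp

lemma pr_apply {d : ℕ} (v : Fin d → ℤ) (j : Fin d) : pr d (v, j) = (v - Pi.single j 1, j) := rfl

lemma pr_phi {d : ℕ} (q : (Fin d → ℤ) × Fin d) : ∑ i, (pr d q).1 i = ∑ i, q.1 i - 1 := by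
  obtain ⟨v, j⟩ := q
  simp [pr_apply, Finset.sum_sub_distrib]

lemma pr_it {d : ℕ} (j : Fin d) (t : ℕ) : (pr d)^[t] (0, j) = (Pi.single j (-(t : ℤ)), j) := by
  induction t with
  | zero => simp
  | succ t ih =>
    rw [Function.iterate_succ_apply', ih, pr_apply, ← Pi.single_sub]
    congr 2
    push_cast; ring

lemma l1_single {d : ℕ} (j : Fin d) (c : ℤ) : l1 (Pi.single j c) = c.natAbs := by
  unfold l1
  rw [Finset.sum_eq_single j (fun b _ hb => by simp [hb]) (by simp)]
  simp

lemma l1_one {d : ℕ} {w : Fin d → ℤ} (h : l1 w = 1) :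
    ∃ j, w = Pi.single j 1 ∨ w = Pi.single j (-1) := by
  unfold l1 at h
  obtain ⟨j, -, hj⟩ := Finset.exists_ne_zero_of_sum_ne_zero (s := Finset.univ)
    (f := fun i => (w i).natAbs) (by omega)
  rw [← Finset.add_sum_erase _ _ (Finset.mem_univ j)] at h
  have h1 : ∑ i ∈ Finset.univ.erase j, (w i).natAbs = 0 := by omega
  have h2 : w = Pi.single j (w j) := by
    ext i
    by_cases hi : i = j
    · simp [hi]
    · have := Finset.sum_eq_zero_iff.1 h1 i (by simp [hi])
      simp [hi, Int.natAbs_eq_zero.1 this]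
  have h3 : w j = 1 ∨ w j = -1 := by omega
  refine ⟨j, ?_⟩
  rcases h3 with h3 | h3 <;> rw [h3] at h2 <;> simp [h2]

lemma ev_bound (d : ℕ) (c : ℝ) : ∀ᶠ r : ℕ in atTop,
    (d : ℝ) * (2 * ((r / 2 + 1).factorial : ℝ)⁻¹) ≤ Real.exp (-c * r) := by
  have h1 := (FloorSemiring.tendsto_pow_div_factorial_atTop (Real.exp (2 * |c|))).const_mul
    (2 * (d : ℝ))
  rw [mul_zero] at h1
  have h2 : Tendsto (fun r : ℕ => r / 2 + 1) atTop atTop :=
    tendsto_atTop.2 fun b => (eventually_ge_atTop (2 * b)).mono fun r hr => by omega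
  filter_upwards [(h1.comp h2).eventually (eventually_le_nhds zero_lt_one)] with r hr
  simp only [Function.comp] at hr
  rw [← Real.exp_nat_mul] at hr
  have h3 : (r : ℝ) ≤ 2 * ((r / 2 + 1 : ℕ) : ℝ) := by exact_mod_cast (by omega)
  have h4 : Real.exp (c * r) ≤ Real.exp (((r / 2 + 1 : ℕ) : ℝ) * (2 * |c|)) := by
    refine Real.exp_le_exp.2 ?_
    have := le_abs_self c
    have h5 : (0 : ℝ) ≤ r := Nat.cast_nonneg r
    nlinarith [abs_nonneg c]
  rw [neg_mul, Real.exp_neg, ← one_div (Real.exp _), le_div_iff₀ (Real.exp_pos _)]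
  refine le_trans ?_ hr
  rw [div_eq_mul_inv]
  have h6 : (0 : ℝ) ≤ 2 * d * ((r / 2 + 1).factorial : ℝ)⁻¹ := by positivity
  nlinarith [mul_le_mul_of_nonneg_left h4 h6]

/-- For every `d` there is a proper colouring of `ℤ^d` with finitely many colours that is
1-dependent and is a finitary factor of an i.i.d. field whose coding radius has a tail
decaying faster than every exponential. -/
theorem result (d : ℕ) :
    ∃ (q : ℕ) (Y : Type) (_ : MeasurableSpace Y) (_ : StandardBorelSpace Y) (ρ : Measure Y)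
      (_ : IsProbabilityMeasure ρ) (F : ((Fin d → ℤ) → Y) → (Fin d → ℤ) → Fin q),
      Measurable F ∧
      (∀ (a : Fin d → ℤ) (y : (Fin d → ℤ) → Y), F (fun v => y (v + a)) = fun v => F y (v + a)) ∧
      (∀ᵐ y ∂(Measure.infinitePi fun _ : Fin d → ℤ => ρ),
        ∀ u v, l1 (u - v) = 1 → F y u ≠ F y v) ∧
      (∀ A B : Set (Fin d → ℤ), (∀ a ∈ A, ∀ b ∈ B, 1 < l1 (a - b)) →
        IndepFun (fun y (a : A) => F y a) (fun y (b : B) => F y b)
          (Measure.infinitePi fun _ : Fin d → ℤ => ρ)) ∧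
      (∀ᵐ y ∂(Measure.infinitePi fun _ : Fin d → ℤ => ρ), radius F y < ⊤) ∧
      ∀ c : ℝ, ∀ᶠ r : ℕ in atTop,
        (Measure.infinitePi fun _ : Fin d → ℤ => ρ) {y | (r : ℕ∞) < radius F y}
          ≤ ENNReal.ofReal (Real.exp (-c * r)) := by
  classical
  let enc := Fintype.equivFin (Fin d → G)
  let U : ((Fin d → ℤ) → Fin d → Y) → (Fin d → ℤ) × Fin d → Y := fun ω q => ω q.1 q.2
  have hU : MeasurePreserving U (Measure.infinitePi fun _ : Fin d → ℤ => muL (Fin d))
      (muL ((Fin d → ℤ) × Fin d)) :=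
    ⟨(MeasurableEquiv.curry _ _ _).symm.measurable,
      Measure.infinitePi_map_curry_symm fun (_ : Fin d → ℤ) (_ : Fin d) => ry⟩
  have em : Measurable enc := measurable_of_countable _
  let F : ((Fin d → ℤ) → Fin d → Y) → (Fin d → ℤ) → Fin (Fintype.card (Fin d → G)) :=
    fun ω v => enc fun j => (XX (pr d) (U ω) (v, j)).2
  have tl : ∀ r : ℕ, (Measure.infinitePi fun _ : Fin d → ℤ => muL (Fin d))
      {y | (r : ℕ∞) < radius F y} ≤ d * (2 * ((r / 2 + 1).factorial : ENNReal)⁻¹) := by
    intro r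
    have h1 : {y | (r : ℕ∞) < radius F y} ⊆ ⋃ j : Fin d, U ⁻¹'
        {y | ∀ n, n + 1 < 2 * (r / 2) → ¬ Mk (pr d) y ((pr d)^[n + 1] (0, j))} := by
      intro ω hω
      by_contra hc
      simp only [Set.mem_iUnion, Set.mem_preimage, Set.mem_ofPred_eq, not_exists, not_forall,
        not_not] at hc
      have hω' : (r : ℕ∞) < radius F ω := hω
      refine absurd hω' (not_lt.2 (iInf₂_le r fun ω' h' => ?_))
      simp only [F]
      congr 1
      ext1 j
      obtain ⟨n, hn, hm⟩ := hc j
      rw [XX_local (pr d) (r := r) (by omega) hm fun t ht => ?_]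
      simp only [pr_it, U]
      rw [h' _ (by rw [l1_single]; simpa using ht)]
    refine (measure_mono h1).trans ((measure_iUnion_fintype_le _ _).trans ?_)
    refine (Finset.sum_le_card_nsmul _ _ _ fun j _ => ?_).trans (by simp; rfl)
    exact (hU.measure_preimage_le _).trans (tail (pr d) (fun q => ∑ i, q.1 i) pr_phi (0, j) (r / 2))
  have tl2 : ∀ c : ℝ, ∀ᶠ r : ℕ in atTop, (Measure.infinitePi fun _ : Fin d → ℤ => muL (Fin d))
      {y | (r : ℕ∞) < radius F y} ≤ ENNReal.ofReal (Real.exp (-c * r)) := by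
    intro c
    filter_upwards [ev_bound d c] with r hr
    refine (tl r).trans (le_trans (le_of_eq ?_) (ENNReal.ofReal_le_ofReal hr))
    rw [ENNReal.ofReal_mul (Nat.cast_nonneg _), ENNReal.ofReal_mul zero_le_two,
      ENNReal.ofReal_inv_of_pos (by exact_mod_cast Nat.factorial_pos _)]
    simp
  have sI : StandardBorelSpace unitInterval :=
    MeasurableSet.standardBorel (s := unitInterval) measurableSet_Icc
  have sS : StandardBorelSpace S := inferInstance
  have sX : StandardBorelSpace Ξ := StandardBorelSpace.prod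
  have sY : StandardBorelSpace Y := StandardBorelSpace.prod
  refine ⟨_, Fin d → Y, inferInstance, inferInstance, muL (Fin d), inferInstance, F, ?_, ?_, ?_,
    ?_, ?_, tl2⟩
  · exact measurable_pi_lambda _ fun v => em.comp
      (measurable_pi_lambda _ fun j => ((XX_meas (pr d) (v, j)).comp hU.measurable).snd)
  · intro a ω
    ext1 v
    simp only [F]
    congr 1
    ext1 j
    exact congrArg Prod.snd (XX_equiv (pr d) (fun q => (q.1 + a, q.2))
      (fun q => by obtain ⟨v, j⟩ := q; simp only [pr_apply, sub_add_eq_add_sub]) (U ω) (v, j))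
  · filter_upwards [hU.quasiMeasurePreserving.ae (ae_all_iff.2 fun i =>
      proper (pr d) (fun q => ∑ i, q.1 i) pr_phi i)] with ω hω u v h hF
    have h1 := enc.injective hF
    obtain ⟨j, h2 | h2⟩ := l1_one h
    · refine hω (u, j) ?_
      rw [pr_apply, ← h2, sub_sub_cancel]
      exact congrFun h1 j
    · refine hω (v, j) ?_
      have h3 : v - Pi.single j 1 = u := by
        rw [Pi.single_neg] at h2
        linear_combination -h2
      rw [pr_apply, h3]
      exact (congrFun h1 j).symm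
  · intro A B hAB
    have h1 := indepL (pr d) (fun q => ∑ i, q.1 i) pr_phi {q | q.1 ∈ A} {q | q.1 ∈ B} (by
      rintro ⟨a, j⟩ ha ⟨b, k⟩ hb
      have h := hAB a ha b hb
      refine ⟨fun hc => ?_, fun hc => ?_, fun hc => ?_⟩
      · have h2 : a = b := (Prod.ext_iff.1 hc).1
        simp [l1, h2] at h
      · have h2 : a - Pi.single j 1 = b := (Prod.ext_iff.1 hc).1
        rw [← h2, sub_sub_cancel, l1_single] at h
        simp at h
      · have h2 : b - Pi.single k 1 = a := (Prod.ext_iff.1 hc).1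
        rw [← h2, sub_sub_cancel_left, ← Pi.single_neg, l1_single] at h
        simp at h)
    have cm : ∀ C : Set (Fin d → ℤ), Measurable
        fun (x : {q : (Fin d → ℤ) × Fin d | q.1 ∈ C} → S) (a : C) =>
          enc fun j => (x ⟨(a, j), a.2⟩).2 := fun C =>
      measurable_pi_lambda _ fun a => em.comp
        (measurable_pi_lambda _ fun j => (measurable_pi_apply _).snd)
    have h2 := h1.comp (cm A) (cm B)
    have pm : ∀ C : Set (Fin d → ℤ), Measurable
        fun y (a : {q : (Fin d → ℤ) × Fin d | q.1 ∈ C}) => XX (pr d) y a := fun C =>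
      measurable_pi_lambda _ fun a => XX_meas _ _
    rw [indepFun_iff_measure_inter_preimage_eq_mul] at h2 ⊢
    intro s t hs ht
    have h3 := h2 s t hs ht
    have a1 := ((cm A).comp (pm A)) hs
    have a2 := ((cm B).comp (pm B)) ht
    rw [← hU.measure_preimage (a1.inter a2).nullMeasurableSet,
      ← hU.measure_preimage a1.nullMeasurableSet, ← hU.measure_preimage a2.nullMeasurableSet] at h3
    exact h3
  · rw [ae_iff]
    have h1 : Tendsto (fun r : ℕ => ENNReal.ofReal (Real.exp (-1 * r))) atTop (𝓝 0) := by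
      rw [← ENNReal.ofReal_zero]
      refine ENNReal.tendsto_ofReal ?_
      simp only [neg_mul, one_mul]
      exact Real.tendsto_exp_neg_atTop_nhds_zero.comp tendsto_natCast_atTop_atTop
    refine le_antisymm (ge_of_tendsto h1 ((tl2 1).mono fun r hr => le_trans (measure_mono ?_) hr))
      zero_le
    intro y hy
    simp only [Set.mem_ofPred_eq, not_lt, top_le_iff] at hy
    simp [hy]

end Pool.Agent.Results.MP_9e03f2_pr.Yes
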